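import Mathlib
import Pool.Agent.V8H54.AG.CaseII

/-!
# All continuous solutions of `f (x + f x) = f x + f (f x)`

The theorem `result` determines all continuous solutions `f : ℝ → ℝ`: besides the linear functions
`f x = a x` these are exactly the functions equal to `a x` for `x ≥ 0` and to `b x` for `x < 0`, with
`a, b ≥ 0`. This answers question Q1.

Idea. With `g x = x + f x` the equation says that `f` and `g` commute. An analysis of the zeros of `f`
and of `g` shows that (up to reflection, and apart from trivial cases) one is in one of three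
situations: `f > 0` on the positive half-line; or `f` reverses signs and `|x| = |f x| + |g x|`; or
`f` reverses signs and `|f x| = |x| + |g x|`. Whenever `A`, `B` commute and `|x| = |A x| + |B x|`, the
numbers `|A^j B^k x|` form a completely monotone array, which is log-convex; so `H = |B| / |·|`
satisfies `H ∘ A ≤ H ≤ H ∘ B`. If `A` is injective and continuous, comparison of the orbits of `A` and a
compactness argument show that `H` is constant. For commuting `G`, `F` with `|G x| = |x| + |F x|` the
orbits of `G`, continued backwards, are absolutely monotone sequences; first `|F| / |·|` is bounded, and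
then two such sequences which agree at all positive indices agree at `0`, so `G` is injective and one
can pass to `A = G⁻¹`, `B = F ∘ G⁻¹`.
-/

set_option autoImplicit false

open Set Filter Topology Function

namespace Pool.Agent.Results.MP_12983e_an.AllContinuousSolutions

open Pool.Agent.V8H54.AG

variable {f : ℝ → ℝ}

/-- The contracting case. -/
theorem contract_half (h : Sol f) (hp : ∀ x, 0 < x → f x < 0) (hm : ∀ x, x < 0 → 0 < f x)
    (h1 : ∀ x, 0 < x → 0 < x + f x) (h2 : ∀ x, 0 < x → -x + f (-x) < 0) :
    ∃ c, 0 < c ∧ ∀ x, 0 < x → f x = -c * x := by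
  have h2' : ∀ x, x < 0 → x + f x < 0 := fun x hx => by
    have := h2 (-x) (by linarith)
    rwa [neg_neg] at this
  have hs0 : ∀ x ∈ Ioi (0 : ℝ), 0 < x := fun x hx => hx
  have hsd : ∀ x ∈ Ioi (0 : ℝ), ∀ y, 0 < y → y ≤ x → y ∈ Ioi (0 : ℝ) := fun x _ y hy _ => hy
  have htend : ∀ x, Tendsto (fun n => (fun x => f (f x))^[n] x) atTop (𝓝 0) := by
    intro x
    rcases lt_trichotomy x 0 with hx | hx | hx
    · exact h.contr_tendsto' hp hm hs0 hsd (fun x hx => h1 x hx) (fun x hx => h2 x hx)
        (show -x ∈ Ioi (0 : ℝ) by simpa using hx)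
    · subst hx
      have hfix : IsFixedPt (fun x => f (f x)) 0 := by
        simp [IsFixedPt, h.zero]
      have : (fun n => (fun x => f (f x))^[n] (0 : ℝ)) = fun _ => 0 := by
        funext n
        exact hfix.iterate n
      rw [this]
      exact tendsto_const_nhds
    · exact h.contr_tendsto hp hm hs0 hsd (fun x hx => h1 x hx) (fun x hx => h2 x hx) hx
  obtain ⟨c, hc0, _, hc⟩ := rigid (A := fun x => x + f x) (B := f) (continuous_id.add h.1) h.1
    (fun x => (h.2 x).symm)
    (by
      intro x
      rcases lt_trichotomy x 0 with hx | hx | hx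
      · have h3 := h2' x hx
        have h4 := hm x hx
        rw [abs_of_neg hx, abs_of_neg h3, abs_of_pos h4]; ring
      · rw [hx, h.zero]; simp
      · have h3 := h1 x hx
        have h4 := hp x hx
        rw [abs_of_pos hx, abs_of_pos h3, abs_of_neg h4]; ring)
    (by
      intro x hx
      rcases lt_or_gt_of_ne hx with hx | hx
      · exact (h2' x hx).ne
      · exact (h1 x hx).ne')
    (by
      intro x hx
      rcases lt_or_gt_of_ne hx with hx | hx
      · exact (hm x hx).ne'
      · exact (hp x hx).ne)
    (fun y z hyz => h.inj_of_tendsto hyz (htend y) (htend z))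
    (fun x hx => hm _ (hp x hx))
  refine ⟨c, hc0, fun x hx => ?_⟩
  have := hc x hx
  rw [abs_of_neg (hp x hx)] at this
  linarith

/-- The expanding case. -/
theorem expand_half (h : Sol f) (hp : ∀ x, 0 < x → f x < 0) (hm : ∀ x, x < 0 → 0 < f x)
    (h1 : ∀ x, 0 < x → x + f x < 0) (h2 : ∀ x, 0 < x → 0 < -x + f (-x)) :
    ∃ c, 0 < c ∧ ∀ x, x < 0 → f x = -c * x := by
  have h2' : ∀ x, x < 0 → 0 < x + f x := fun x hx => by
    have := h2 (-x) (by linarith)
    rwa [neg_neg] at this
  obtain ⟨c, hc0, hc1, hc⟩ := expand (G := f) (F := fun x => x + f x) h.1 (continuous_id.add h.1)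
    (by simp [h.zero]) h.2
    (by
      intro x
      rcases lt_trichotomy x 0 with hx | hx | hx
      · have h3 := h2' x hx
        have h4 := hm x hx
        rw [abs_of_neg hx, abs_of_pos h3, abs_of_pos h4]; ring
      · rw [hx, h.zero]; simp
      · have h3 := h1 x hx
        have h4 := hp x hx
        rw [abs_of_pos hx, abs_of_neg h3, abs_of_neg h4]; ring)
    (by
      intro x hx
      rcases lt_or_gt_of_ne hx with hx | hx
      · exact mul_neg_of_pos_of_neg (hm x hx) (hp _ (by linarith))
      · exact mul_neg_of_neg_of_pos (hp x hx) (hm _ (by linarith)))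
    (by
      intro x hx
      rcases lt_or_gt_of_ne hx with hx | hx
      · exact mul_pos (h2' x hx) (hm x hx)
      · exact mul_pos_of_neg_of_neg (h1 x hx) (hp x hx))
  refine ⟨1 / (1 - c), by have : 0 < 1 - c := by linarith
                          positivity, fun x hx => ?_⟩
  have h3 := hc x (hm x hx)
  rw [abs_of_pos (h2' x hx)] at h3
  have h4 : (1 - c) ≠ 0 := by linarith
  field_simp
  linarith

theorem mirr_hyp (hp : ∀ x, 0 < x → f x < 0) (hm : ∀ x, x < 0 → 0 < f x) :
    (∀ x, 0 < x → mirr f x < 0) ∧ (∀ x, x < 0 → 0 < mirr f x) := by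
  refine ⟨fun x hx => ?_, fun x hx => ?_⟩
  · simp only [mirr]; linarith [hm (-x) (by linarith)]
  · simp only [mirr]; linarith [hp (-x) (by linarith)]

/-- If `f` reverses signs then it is linear. -/
theorem caseC (h : Sol f) (hp : ∀ x, 0 < x → f x < 0) (hm : ∀ x, x < 0 → 0 < f x) :
    ∃ a, ∀ x, f x = a * x := by
  by_cases hg : ∀ x, x + f x = 0
  · exact ⟨-1, fun x => by linarith [hg x]⟩
  push Not at hg
  obtain ⟨x0, hx0⟩ := hg
  obtain ⟨ε, hε, hε'⟩ := h.noAccum hx0
  have hne : ∀ x, 0 < x → x + f x ≠ 0 := by
    intro x hx hgx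
    have hcont : Continuous (fun x => x + f x) := continuous_id.add h.1
    set C : Set ℝ := {x | ε ≤ x ∧ x + f x = 0} with hC
    have hCc : IsClosed C := (isClosed_le continuous_const continuous_id).inter
      (isClosed_eq hcont continuous_const)
    have hCne : C.Nonempty := by
      refine ⟨x, ?_, hgx⟩
      by_contra hlt
      push Not at hlt
      exact hε' x hx hlt hgx
    have hCb : BddBelow C := ⟨ε, fun x hx => hx.1⟩
    have hw := hCc.csInf_mem hCne hCb
    set w := sInf C
    refine h.no_root hp hm (lt_of_lt_of_le hε hw.1) hw.2 (fun y hy hyw hgy => ?_)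
    rcases lt_or_ge y ε with h1 | h1
    · exact hε' y hy h1 hgy
    · have := csInf_le hCb (show y ∈ C from ⟨h1, hgy⟩)
      linarith
  obtain ⟨hp', hm'⟩ := mirr_hyp hp hm
  have hlast : (∃ c, 0 < c ∧ ∀ x, 0 < x → f x = -c * x) →
      (∃ c, 0 < c ∧ ∀ x, 0 < x → mirr f x = -c * x) → ∃ a, ∀ x, f x = a * x := by
    rintro ⟨c, hc, hfc⟩ ⟨d, hd, hfd⟩
    have hfd' : ∀ x, x < 0 → f x = -d * x := by
      intro x hx
      have := hfd (-x) (by linarith)
      simp only [mirr, neg_neg] at this
      linarith
    have hcd : c = d := by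
      have h1 := h.2 1
      rw [hfc 1 one_pos, hfd' (-c * 1) (by linarith)] at h1
      rcases lt_trichotomy (1 + -c * 1) 0 with h3 | h3 | h3
      · rw [hfd' _ h3] at h1
        nlinarith
      · rw [h3, h.zero] at h1
        have : c = 1 := by linarith
        rw [this] at h1 ⊢
        linarith
      · rw [hfc _ h3] at h1
        have h4 : c * (c - d) = 0 := by linarith
        rcases mul_eq_zero.1 h4 with h5 | h5
        · linarith
        · linarith
    refine ⟨-c, fun x => ?_⟩
    rcases lt_trichotomy x 0 with hx | hx | hx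
    · rw [hfd' x hx, hcd]
    · rw [hx, h.zero]; ring
    · exact hfc x hx
  rcases h.alt hp hm (s := Ioi 0) ordConnected_Ioi (fun x hx => hx) (fun x _ y hy _ => hy)
    ⟨1, mem_Ioi.2 one_pos⟩ (fun x hx => hne x hx) with ⟨h1, h2⟩ | ⟨h1, h2⟩
  · refine hlast (contract_half h hp hm h1 h2) (contract_half h.mir hp' hm' ?_ ?_)
    · intro x hx
      have := h2 x hx
      simp only [mirr]; linarith
    · intro x hx
      have := h1 x hx
      simp only [mirr, neg_neg]; linarith
  · have e1 := expand_half h hp hm h1 h2
    have e2 := expand_half h.mir hp' hm' (by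
      intro x hx
      have := h2 x hx
      simp only [mirr]; linarith) (by
      intro x hx
      have := h1 x hx
      simp only [mirr, neg_neg]; linarith)
    refine hlast ?_ ?_
    · obtain ⟨c, hc, hfc⟩ := e2
      refine ⟨c, hc, fun x hx => ?_⟩
      have := hfc (-x) (by linarith)
      simp only [mirr, neg_neg] at this
      linarith
    · obtain ⟨c, hc, hfc⟩ := e1
      refine ⟨c, hc, fun x hx => ?_⟩
      have := hfc (-x) (by linarith)
      simp only [mirr]
      linarith

/-- If `f` is positive on the positive half-line, then it is linear there. -/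
theorem pos_half (h : Sol f) (hpos : ∀ x, 0 < x → 0 < f x) :
    ∃ a, 0 ≤ a ∧ ∀ x, 0 ≤ x → f x = a * x := by
  set F : ℝ → ℝ := fun x => f (max x 0) - f (max (-x) 0) with hF
  have hFp : ∀ x, 0 ≤ x → F x = f x := by
    intro x hx
    simp only [hF]
    rw [max_eq_left hx, max_eq_right (by linarith), h.zero, sub_zero]
  have hFm : ∀ x, x ≤ 0 → F x = -f (-x) := by
    intro x hx
    simp only [hF]
    rw [max_eq_right hx, max_eq_left (by linarith), h.zero, zero_sub]
  have hf0 : ∀ x, 0 ≤ x → 0 ≤ f x := by
    intro x hx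
    rcases hx.eq_or_lt with h1 | h1
    · rw [← h1, h.zero]
    · exact (hpos x h1).le
  have hFc : Continuous F := (h.1.comp (continuous_id.max continuous_const)).sub
    (h.1.comp (continuous_neg.max continuous_const))
  obtain ⟨c, hc0, hc1, hc⟩ := expand (G := fun x => x + F x) (F := F) (continuous_id.add hFc) hFc
    (by rw [hFp 0 le_rfl, h.zero])
    (by
      intro x
      rcases le_total 0 x with hx | hx
      · rw [hFp x hx, hFp _ (hf0 x hx), hFp _ (add_nonneg hx (hf0 x hx)), h.2]
      · have h1 := hf0 (-x) (by linarith)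
        rw [hFm x hx, hFm (-f (-x)) (by linarith), hFm (x + -f (-x)) (by linarith), neg_neg]
        have e : -(x + -f (-x)) = -x + f (-x) := by ring
        rw [e, h.2]; ring)
    (by
      intro x
      rcases le_total 0 x with hx | hx
      · have h1 := hf0 x hx
        rw [hFp x hx, abs_of_nonneg hx, abs_of_nonneg h1, abs_of_nonneg (add_nonneg hx h1)]
      · have h1 := hf0 (-x) (by linarith)
        rw [hFm x hx, abs_of_nonpos hx, abs_of_nonpos (by linarith : -f (-x) ≤ 0),
          abs_of_nonpos (by linarith : x + -f (-x) ≤ 0)]; ring)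
    (by
      intro x hx
      rcases lt_or_gt_of_ne hx with hx | hx
      · have h1 := hpos (-x) (by linarith)
        rw [hFm x hx.le, hFp (-x) (by linarith)]
        exact mul_neg_of_neg_of_pos (by linarith) (by linarith)
      · have h1 := hpos x hx
        rw [hFp x hx.le, hFm (-x) (by linarith), neg_neg]
        exact mul_neg_of_pos_of_neg (by linarith) (by linarith))
    (by
      intro x hx
      rcases lt_or_gt_of_ne hx with hx | hx
      · have h1 := hpos (-x) (by linarith)
        rw [hFm x hx.le]
        exact mul_pos_of_neg_of_neg (by linarith) (by linarith)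
      · have h1 := hpos x hx
        rw [hFp x hx.le]
        exact mul_pos h1 (by linarith))
  have h1c : 0 < 1 - c := by linarith
  refine ⟨c / (1 - c), by positivity, fun x hx => ?_⟩
  rcases hx.eq_or_lt with h1 | h1
  · rw [← h1, h.zero]; ring
  · have h2 := hpos x h1
    have h3 := hc x (by rw [hFp x h1.le]; linarith)
    rw [hFp x h1.le, abs_of_pos h2] at h3
    field_simp
    linarith

/-- If `f` is nonnegative on the positive half-line, then it is linear there. -/
theorem nonneg_half (h : Sol f) (hf : ∀ x, 0 ≤ x → 0 ≤ f x) :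
    ∃ a, 0 ≤ a ∧ ∀ x, 0 ≤ x → f x = a * x := by
  by_cases hex : ∃ y, 0 < y ∧ 0 < f y
  · obtain ⟨y, hy, hfy⟩ := hex
    exact pos_half h (h.dichotomy hy hfy)
  · push Not at hex
    refine ⟨0, le_rfl, fun x hx => ?_⟩
    rcases hx.eq_or_lt with h1 | h1
    · rw [← h1, h.zero]; ring
    · rw [zero_mul]
      exact le_antisymm (hex x h1) (hf x hx)

/-- The mirror image of `nonneg_half`. -/
theorem nonpos_half (h : Sol f) (hf : ∀ x, x ≤ 0 → f x ≤ 0) :
    ∃ b, 0 ≤ b ∧ ∀ x, x ≤ 0 → f x = b * x := by
  obtain ⟨b, hb, hfb⟩ := nonneg_half h.mir (fun x hx => by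
    simp only [mirr]; linarith [hf (-x) (by linarith)])
  refine ⟨b, hb, fun x hx => ?_⟩
  have := hfb (-x) (by linarith)
  simp only [mirr, neg_neg] at this
  linarith

/-- The mirror image of `Sol.step2`. -/
theorem step2' (h : Sol f) {a : ℝ} (ha : 0 ≤ a) (hlin : ∀ x, 0 ≤ x → f x = a * x) :
    ∀ x, x ≤ 0 → f x ≤ 0 := by
  intro x hx
  have h1 := h.mir.step2 ha (fun x hx => by
    simp only [mirr]
    rw [hlin (-x) (by linarith)]; ring) (-x) (by linarith)
  simp only [mirr, neg_neg] at h1
  linarith

/-- **Answer to Q1.** The continuous solutions of `f (x + f x) = f x + f (f x)` are the linear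
functions and the functions equal to `a x` for `x ≥ 0` and to `b x` for `x < 0`, with `a, b ≥ 0`. -/
theorem result (f : ℝ → ℝ) (hf : Continuous f) :
    (∀ x, f (x + f x) = f x + f (f x)) ↔
      (∃ a : ℝ, ∀ x, f x = a * x) ∨
      (∃ a b : ℝ, 0 ≤ a ∧ 0 ≤ b ∧ ∀ x, f x = if 0 ≤ x then a * x else b * x) := by
  constructor
  · intro he
    have h : Sol f := ⟨hf, he⟩
    have hright : (∃ a b : ℝ, 0 ≤ a ∧ 0 ≤ b ∧ (∀ x, 0 ≤ x → f x = a * x) ∧
        (∀ x, x ≤ 0 → f x = b * x)) →
        ∃ a b : ℝ, 0 ≤ a ∧ 0 ≤ b ∧ ∀ x, f x = if 0 ≤ x then a * x else b * x := by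
      rintro ⟨a, b, ha, hb, h1, h2⟩
      refine ⟨a, b, ha, hb, fun x => ?_⟩
      split_ifs with hx
      · exact h1 x hx
      · exact h2 x (not_le.1 hx).le
    by_cases hA : ∀ x, 0 ≤ x → 0 ≤ f x
    · right
      obtain ⟨a, ha, hfa⟩ := nonneg_half h hA
      obtain ⟨b, hb, hfb⟩ := nonpos_half h (step2' h ha hfa)
      exact hright ⟨a, b, ha, hb, hfa, hfb⟩
    by_cases hB : ∀ x, x ≤ 0 → f x ≤ 0
    · right
      obtain ⟨b, hb, hfb⟩ := nonpos_half h hB
      obtain ⟨a, ha, hfa⟩ := nonneg_half h (h.step2 hb hfb)
      exact hright ⟨a, b, ha, hb, hfa, hfb⟩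
    left
    have hp0 : ∀ x, 0 ≤ x → f x ≤ 0 := by
      intro x hx
      by_contra hlt
      push Not at hlt
      have hx0 : 0 < x := by
        rcases hx.eq_or_lt with h1 | h1
        · rw [← h1, h.zero] at hlt; exact absurd hlt (lt_irrefl _)
        · exact h1
      apply hA
      intro z hz
      rcases hz.eq_or_lt with h1 | h1
      · rw [← h1, h.zero]
      · exact (h.dichotomy hx0 hlt z h1).le
    have hm0 : ∀ x, x ≤ 0 → 0 ≤ f x := by
      intro x hx
      by_contra hlt
      push Not at hlt
      have hx0 : x < 0 := by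
        rcases hx.eq_or_lt with h1 | h1
        · rw [h1, h.zero] at hlt; exact absurd hlt (lt_irrefl _)
        · exact h1
      apply hB
      intro z hz
      rcases hz.eq_or_lt with h1 | h1
      · rw [h1, h.zero]
      · have := h.mir.dichotomy (y := -x) (by linarith) (by
          simp only [mirr, neg_neg]; linarith) (-z) (by linarith)
        simp only [mirr, neg_neg] at this
        linarith
    have hne : ¬ ∀ x, f x = 0 := fun hall => hA (fun x _ => (hall x).ge)
    have hp := h.step5 hp0 hm0 hne
    have hm := h.mir.step5 (fun x hx => by simp only [mirr]; linarith [hm0 (-x) (by linarith)])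
      (fun x hx => by simp only [mirr]; linarith [hp0 (-x) (by linarith)])
      (fun hall => hne (fun x => by
        have := hall (-x)
        simp only [mirr, neg_neg] at this
        linarith))
    exact caseC h hp (fun x hx => by
      have := hm (-x) (by linarith)
      simp only [mirr, neg_neg] at this
      linarith)
  · rintro (⟨a, ha⟩ | ⟨a, b, ha, hb, hab⟩) x
    · simp only [ha]; ring
    · rcases le_or_gt 0 x with hx | hx
      · have h1 : f x = a * x := by rw [hab, if_pos hx]
        have h2 : 0 ≤ a * x := mul_nonneg ha hx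
        rw [h1, hab (a * x), hab (x + a * x), if_pos h2, if_pos (by linarith)]
        ring
      · have h1 : f x = b * x := by rw [hab, if_neg (not_le.2 hx)]
        rcases hb.eq_or_lt with h2 | h2
        · rw [h1, ← h2, zero_mul, add_zero, h1, ← h2, hab 0]
          simp
        · have h3 : b * x < 0 := mul_neg_of_pos_of_neg h2 hx
          rw [h1, hab (b * x), hab (x + b * x), if_neg (not_le.2 h3),
            if_neg (not_le.2 (by linarith))]
          ring

end Pool.Agent.Results.MP_12983e_an.AllContinuousSolutions
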